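import Mathlib

/-!
# Strongly `P`-forcing 0-1 matrices: the counting core

`G` is the relation given by the one entries. `Cov G t`: each one entry is contained in a
permutation submatrix of size `t + 1`.
-/

set_option autoImplicit false
set_option linter.all false

namespace Pool.Agent.V11165.QF

open Finset

variable {n : ℕ}

/-- every one entry `(x, y)` lies in a permutation submatrix of size `t + 1` -/
def Cov (G : Fin n → Fin n → Prop) (t : ℕ) : Prop :=
  ∀ x y, G x y → ∃ R C : Fin t → Fin n, Function.Injective R ∧ Function.Injective C ∧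
    (∀ i, R i ≠ x) ∧ (∀ i, C i ≠ y) ∧ (∀ i, ¬ G x (C i)) ∧ (∀ i, ¬ G (R i) y) ∧
    ∀ i j, G (R i) (C j) ↔ i = j

lemma Cov.swap {G : Fin n → Fin n → Prop} {t : ℕ} (h : Cov G t) : Cov (fun x y => G y x) t := by
  intro x y hxy
  obtain ⟨R, C, h1, h2, h3, h4, h5, h6, h7⟩ := h y x hxy
  exact ⟨C, R, h2, h1, h4, h3, h6, h5, fun i j => (h7 j i).trans eq_comm⟩

open Classical in
/-- the degree of a row -/
noncomputable def rdeg (G : Fin n → Fin n → Prop) (x : Fin n) : ℕ :=
  (univ.filter fun y => G x y).card

open Classical in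
/-- the degree of a column -/
noncomputable def cdeg (G : Fin n → Fin n → Prop) (y : Fin n) : ℕ :=
  (univ.filter fun x => G x y).card

/-- the number of ones -/
noncomputable def ones (G : Fin n → Fin n → Prop) : ℕ := ∑ x, rdeg G x

lemma ones_eq_cols (G : Fin n → Fin n → Prop) : ones G = ∑ y, cdeg G y := by
  classical
  have := Finset.sum_card_bipartiteAbove_eq_sum_card_bipartiteBelow (s := univ) (t := univ)
    (r := G)
  simpa [ones, rdeg, cdeg, Finset.bipartiteAbove, Finset.bipartiteBelow] using this

/-- the three counting bounds at a row of maximal degree -/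
theorem master {G : Fin n → Fin n → Prop} {t d D : ℕ} (h : Cov G t) (x : Fin n)
    (hx : rdeg G x = D) (hr : ∀ s, rdeg G s ≤ D) (hc : ∀ y, cdeg G y ≤ D)
    (hn : n = t + d + D) :
    ∃ q b : ℕ, q + b + 1 = n ∧ ones G + D * t ≤ D * n + (d + 1) * q ∧
      ones G ≤ D * D + (d + 1) * q + D * b ∧ ones G ≤ D * D + (d + 1) * q + (t + d) * b := by
  classical
  let F : Finset (Fin n) := univ.filter fun y => G x y
  have hF : F.card = D := hx
  have hex : ∀ y : Fin n, ∃ R C : Fin t → Fin n, G x y → (Function.Injective R ∧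
      Function.Injective C ∧ (∀ i, R i ≠ x) ∧ (∀ i, ¬ G x (C i)) ∧ (∀ i, ¬ G (R i) y) ∧
      ∀ i j, G (R i) (C j) ↔ i = j) := by
    intro y
    by_cases hy : G x y
    · obtain ⟨R, C, h1, h2, h3, h4, h5, h6, h7⟩ := h x y hy
      exact ⟨R, C, fun _ => ⟨h1, h2, h3, h5, h6, h7⟩⟩
    · exact ⟨fun _ => x, fun _ => x, fun h => absurd h hy⟩
  choose R C hRC using hex
  let P : Finset (Fin n) := F.biUnion fun y => univ.image (R y)
  have hxP : x ∉ P := by
    intro hmem
    obtain ⟨y, hy, hxy⟩ := mem_biUnion.1 hmem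
    obtain ⟨i, -, hi⟩ := mem_image.1 hxy
    exact (hRC y (mem_filter.1 hy).2).2.2.1 i hi
  let N : Finset (Fin n) := univ \ insert x P
  -- ones in and out of `F`
  let a : Fin n → ℕ := fun s => (univ.filter fun y => G s y ∧ G x y).card
  let o : Fin n → ℕ := fun s => (univ.filter fun y => G s y ∧ ¬ G x y).card
  have hao : ∀ s, rdeg G s = a s + o s := by
    intro s
    have : (univ.filter fun y => G s y) = (univ.filter fun y => G s y ∧ G x y) ∪
        (univ.filter fun y => G s y ∧ ¬ G x y) := by
      ext y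
      simp only [mem_filter, mem_univ, true_and, mem_union]
      tauto
    show (univ.filter fun y => G s y).card = _
    rw [this, card_union_of_disjoint]
    rw [disjoint_left]
    intro y hy1 hy2
    exact (mem_filter.1 hy2).2.2 (mem_filter.1 hy1).2.2
  have hcompl : (univ.filter fun y => ¬ G x y).card = t + d := by
    have := Finset.card_filter_add_card_filter_not (s := (univ : Finset (Fin n)))
      (p := fun y => G x y)
    rw [card_univ, Fintype.card_fin] at this
    have h2 : (univ.filter fun y => G x y).card = D := hx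
    omega
  have ho1 : ∀ s ∈ P, o s ≤ d + 1 := by
    intro s hs
    obtain ⟨y, hy, hsy⟩ := mem_biUnion.1 hs
    obtain ⟨i, -, rfl⟩ := mem_image.1 hsy
    obtain ⟨h1, h2, h3, h5, h6, h7⟩ := hRC y (mem_filter.1 hy).2
    let B : Finset (Fin n) := (univ.erase i).image (C y)
    have hBc : B.card = t - 1 := by
      rw [card_image_of_injective _ h2, card_erase_of_mem (mem_univ _), card_univ,
        Fintype.card_fin]
    have hBsub : B ⊆ univ.filter fun z => ¬ G x z := by
      intro z hz
      obtain ⟨j, -, rfl⟩ := mem_image.1 hz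
      exact mem_filter.2 ⟨mem_univ _, h5 j⟩
    have hsub : (univ.filter fun z => G (R y i) z ∧ ¬ G x z) ⊆
        (univ.filter fun z => ¬ G x z) \ B := by
      intro z hz
      obtain ⟨-, hz1, hz2⟩ := mem_filter.1 hz
      refine mem_sdiff.2 ⟨mem_filter.2 ⟨mem_univ _, hz2⟩, fun hzB => ?_⟩
      obtain ⟨j, hj, rfl⟩ := mem_image.1 hzB
      exact (mem_erase.1 hj).1 ((h7 i j).1 hz1).symm
    have := card_le_card hsub
    rw [card_sdiff_of_subset hBsub, hcompl, hBc] at this
    have ht : 0 < t := i.pos
    show (univ.filter fun z => G (R y i) z ∧ ¬ G x z).card ≤ d + 1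
    omega
  have ho2 : ∀ s, o s ≤ t + d := by
    intro s
    rw [← hcompl]
    exact card_le_card fun z hz => mem_filter.2 ⟨mem_univ _, (mem_filter.1 hz).2.2⟩
  have ho3 : ∀ s, o s ≤ D := fun s => by
    have := hr s
    rw [hao] at this
    omega
  have hox : o x = 0 := by
    show (univ.filter fun y => G x y ∧ ¬ G x y).card = 0
    rw [card_eq_zero]
    ext y
    simp
  -- each `y ∈ F` has at least `t` non neighbours in `P`
  have hy1 : ∀ y ∈ F, (P.filter fun s => G s y).card + t ≤ P.card := by
    intro y hy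
    obtain ⟨h1, h2, h3, h5, h6, h7⟩ := hRC y (mem_filter.1 hy).2
    have himg : (univ.image (R y)).card = t := by
      rw [card_image_of_injective _ h1, card_univ, Fintype.card_fin]
    have hdis : Disjoint (P.filter fun s => G s y) (univ.image (R y)) := by
      rw [disjoint_left]
      intro s hs hs2
      obtain ⟨i, -, rfl⟩ := mem_image.1 hs2
      exact h6 i (mem_filter.1 hs).2
    have hsub : (P.filter fun s => G s y) ∪ univ.image (R y) ⊆ P := by
      refine union_subset (filter_subset _ _) fun s hs => ?_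
      exact mem_biUnion.2 ⟨y, hy, hs⟩
    have := card_le_card hsub
    rw [card_union_of_disjoint hdis, himg] at this
    exact this
  have haP : ∑ s ∈ P, a s + D * t ≤ D * P.card := by
    have e1 : ∑ s ∈ P, a s = ∑ y ∈ F, (P.filter fun s => G s y).card := by
      have := Finset.sum_card_bipartiteAbove_eq_sum_card_bipartiteBelow (s := P) (t := F)
        (r := G)
      simp only [Finset.bipartiteAbove, Finset.bipartiteBelow] at this
      rw [← this]
      refine sum_congr rfl fun s _ => ?_
      show (univ.filter fun y => G s y ∧ G x y).card = _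
      congr 1
      ext y
      simp only [mem_filter, mem_univ, true_and, F]
      tauto
    rw [e1]
    calc ∑ y ∈ F, (P.filter fun s => G s y).card + D * t
        = ∑ y ∈ F, ((P.filter fun s => G s y).card + t) := by
          rw [sum_add_distrib, sum_const, hF, smul_eq_mul]
      _ ≤ ∑ y ∈ F, P.card := sum_le_sum hy1
      _ = D * P.card := by rw [sum_const, hF, smul_eq_mul]
  have haU : ∑ s, a s ≤ D * D := by
    have e1 : ∑ s, a s = ∑ y ∈ F, cdeg G y := by
      have := Finset.sum_card_bipartiteAbove_eq_sum_card_bipartiteBelow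
        (s := (univ : Finset (Fin n))) (t := F) (r := G)
      simp only [Finset.bipartiteAbove, Finset.bipartiteBelow] at this
      show _ = ∑ y ∈ F, (univ.filter fun x => G x y).card
      rw [← this]
      refine sum_congr rfl fun s _ => ?_
      show (univ.filter fun y => G s y ∧ G x y).card = _
      congr 1
      ext y
      simp only [mem_filter, mem_univ, true_and, F]
      tauto
    rw [e1]
    calc ∑ y ∈ F, cdeg G y ≤ ∑ y ∈ F, D := sum_le_sum fun y _ => hc y
      _ = D * D := by rw [sum_const, hF, smul_eq_mul]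
  -- the split of the rows
  have hsplit : ∀ f : Fin n → ℕ, ∑ s, f s = f x + ∑ s ∈ P, f s + ∑ s ∈ N, f s := by
    intro f
    have h1 : ∑ s, f s = ∑ s ∈ insert x P, f s + ∑ s ∈ N, f s := by
      rw [add_comm]
      exact (sum_sdiff (subset_univ (insert x P))).symm
    rw [h1, sum_insert hxP]
  have hN : P.card + N.card + 1 = n := by
    have := hsplit fun _ => 1
    simp only [sum_const, card_univ, Fintype.card_fin, smul_eq_mul, mul_one] at this
    omega
  refine ⟨P.card, N.card, hN, ?_, ?_, ?_⟩
  · -- bound 1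
    have h1 : ones G = D + ∑ s ∈ P, rdeg G s + ∑ s ∈ N, rdeg G s := by
      rw [ones, hsplit (rdeg G), hx]
    have h2 : ∑ s ∈ P, rdeg G s ≤ ∑ s ∈ P, a s + (d + 1) * P.card := by
      calc ∑ s ∈ P, rdeg G s = ∑ s ∈ P, a s + ∑ s ∈ P, o s := by
            rw [← sum_add_distrib]
            exact sum_congr rfl fun s _ => hao s
        _ ≤ ∑ s ∈ P, a s + ∑ s ∈ P, (d + 1) := by
            gcongr with s hs
            exact ho1 s hs
        _ = _ := by rw [sum_const, smul_eq_mul, mul_comm]
    have h3 : ∑ s ∈ N, rdeg G s ≤ D * N.card := by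
      calc ∑ s ∈ N, rdeg G s ≤ ∑ s ∈ N, D := sum_le_sum fun s _ => hr s
        _ = _ := by rw [sum_const, smul_eq_mul, mul_comm]
    calc ones G + D * t ≤ D + (∑ s ∈ P, a s + (d + 1) * P.card) + D * N.card + D * t := by
          rw [h1]; gcongr
      _ = D + D * N.card + (d + 1) * P.card + (∑ s ∈ P, a s + D * t) := by ring
      _ ≤ D + D * N.card + (d + 1) * P.card + D * P.card := by gcongr
      _ = D * (P.card + N.card + 1) + (d + 1) * P.card := by ring
      _ = _ := by rw [hN]
  all_goals
    have h1 : ones G = ∑ s, a s + (∑ s ∈ P, o s + ∑ s ∈ N, o s) := by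
      have : ∑ s, o s = ∑ s ∈ P, o s + ∑ s ∈ N, o s := by
        rw [hsplit o, hox, zero_add]
      rw [← this, ← sum_add_distrib]
      exact sum_congr rfl fun s _ => hao s
    have h2 : ∑ s ∈ P, o s ≤ (d + 1) * P.card := by
      calc ∑ s ∈ P, o s ≤ ∑ s ∈ P, (d + 1) := sum_le_sum ho1
        _ = _ := by rw [sum_const, smul_eq_mul, mul_comm]
  · have h3 : ∑ s ∈ N, o s ≤ D * N.card := by
      calc ∑ s ∈ N, o s ≤ ∑ s ∈ N, D := sum_le_sum fun s _ => ho3 s
        _ = _ := by rw [sum_const, smul_eq_mul, mul_comm]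
    rw [h1]
    omega
  · have h3 : ∑ s ∈ N, o s ≤ (t + d) * N.card := by
      calc ∑ s ∈ N, o s ≤ ∑ s ∈ N, (t + d) := sum_le_sum fun s _ => ho2 s
        _ = _ := by rw [sum_const, smul_eq_mul, mul_comm]
    rw [h1]
    omega

end Pool.Agent.V11165.QF
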