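import Pool.Agent.V11165.QF.Upper

/-!
# Strongly `Q`-forcing matrices: translation and the construction
-/

set_option autoImplicit false
set_option linter.all false

namespace Pool.Agent.V11165.QF

open Finset

/-- every one entry is contained in a submatrix equal to `Q` -/
def Forcing {k n : ℕ} (Q : Fin k → Fin k → Bool) (A : Fin n → Fin n → Bool) : Prop :=
  ∀ x y, A x y = true → ∃ r c : Fin k → Fin n, StrictMono r ∧ StrictMono c ∧
    (∀ i j, A (r i) (c j) = Q i j) ∧ (∃ i, r i = x) ∧ (∃ j, c j = y)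

/-- the number of ones -/
def count {n : ℕ} (A : Fin n → Fin n → Bool) : ℕ :=
  (univ.filter fun p : Fin n × Fin n => A p.1 p.2 = true).card

/-- the permutation matrix of `σ` -/
def permMat {k : ℕ} (σ : Equiv.Perm (Fin k)) : Fin k → Fin k → Bool := fun i j => decide (σ i = j)

/-- the identity matrix -/
def idMat (k : ℕ) : Fin k → Fin k → Bool := fun i j => decide (i = j)

lemma rdeg_bool {n : ℕ} (A : Fin n → Fin n → Bool) (x : Fin n) :
    rdeg (fun x y => A x y = true) x = (univ.filter fun y => A x y = true).card := by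
  rw [rdeg]
  congr!

lemma count_eq {n : ℕ} (A : Fin n → Fin n → Bool) : count A = ones (fun x y => A x y = true) := by
  rw [count, ones, card_filter, Fintype.sum_prod_type]
  refine sum_congr rfl fun x _ => ?_
  rw [rdeg_bool, card_filter]

lemma Forcing.cov {t n : ℕ} {σ : Equiv.Perm (Fin (t + 1))} {A : Fin n → Fin n → Bool}
    (h : Forcing (permMat σ) A) : Cov (fun x y => A x y = true) t := by
  intro x y hxy
  obtain ⟨r, c, hr, hc, hA, ⟨i, rfl⟩, ⟨j, rfl⟩⟩ := h x y hxy
  have hA' : ∀ i j, A (r i) (c j) = true ↔ σ i = j := by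
    intro i j
    rw [hA i j]
    simp [permMat]
  have hij : σ i = j := (hA' i j).1 hxy
  have hsne : ∀ l, i.succAbove l ≠ i := fun l => Fin.succAbove_ne i l
  refine ⟨fun l => r (i.succAbove l), fun l => c (σ (i.succAbove l)), ?_, ?_, ?_, ?_, ?_, ?_, ?_⟩
  · intro l m hlm
    exact Fin.succAbove_right_injective (hr.injective hlm)
  · intro l m hlm
    exact Fin.succAbove_right_injective (σ.injective (hc.injective hlm))
  · intro l hl
    exact hsne l (hr.injective hl)
  · intro l hl
    have := hc.injective hl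
    rw [← hij] at this
    exact hsne l (σ.injective this)
  · intro l hl
    have := (hA' _ _).1 hl
    exact hsne l (σ.injective this.symm)
  · intro l hl
    have := (hA' _ _).1 hl
    rw [← hij] at this
    exact hsne l (σ.injective this)
  · intro l m
    show A (r (i.succAbove l)) (c (σ (i.succAbove m))) = true ↔ l = m
    rw [hA']
    constructor
    · intro h
      exact Fin.succAbove_right_injective (σ.injective h)
    · rintro rfl
      rfl

/-- the matrix `I_{k-2} ⊕ (J - H)` -/
def S (k n : ℕ) : Fin n → Fin n → Bool := fun i j =>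
  decide ((i = j ∧ i.val + 2 < k) ∨
    (k ≤ i.val + 2 ∧ k ≤ j.val + 2 ∧ i.val + j.val + 3 ≠ n + k))

lemma S_forcing {k n : ℕ} (hk : 2 ≤ k) (hn : k ≤ n) : Forcing (idMat k) (S k n) := by
  intro x y hxy
  have hxy' : (x.val = y.val ∧ x.val + 2 < k) ∨
      (k ≤ x.val + 2 ∧ k ≤ y.val + 2 ∧ x.val + y.val + 3 ≠ n + k) := by
    simpa [S, Fin.ext_iff] using hxy
  have hxn := x.isLt
  have hyn := y.isLt
  obtain ⟨p, q, hpq, hq, hp, hcase⟩ : ∃ p q : ℕ, p < q ∧ q < n ∧ k ≤ p + 2 ∧
      ((x.val = y.val ∧ x.val + 2 < k) ∨ (x.val = p ∧ y.val = n + k - 3 - q) ∨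
        (x.val = q ∧ y.val = n + k - 3 - p)) := by
    rcases hxy' with h | ⟨h1, h2, h3⟩
    · exact ⟨k - 2, k - 1, by omega, by omega, by omega, Or.inl h⟩
    · rcases lt_or_gt_of_ne (show x.val ≠ n + k - 3 - y.val by omega) with h | h
      · exact ⟨x.val, n + k - 3 - y.val, h, by omega, h1, Or.inr (Or.inl ⟨rfl, by omega⟩)⟩
      · exact ⟨n + k - 3 - y.val, x.val, h, hxn, by omega, Or.inr (Or.inr ⟨rfl, by omega⟩)⟩
  refine ⟨fun i => ⟨if i.val + 2 < k then i.val else if i.val + 2 = k then p else q, ?_⟩,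
    fun i => ⟨if i.val + 2 < k then i.val else if i.val + 2 = k then n + k - 3 - q else
      n + k - 3 - p, ?_⟩, ?_, ?_, ?_, ?_, ?_⟩
  · have := i.isLt
    split_ifs <;> omega
  · have := i.isLt
    split_ifs <;> omega
  · intro i j hij
    have h1 := i.isLt
    have h2 := j.isLt
    have h3 : i.val < j.val := hij
    show (if i.val + 2 < k then i.val else if i.val + 2 = k then p else q) <
      (if j.val + 2 < k then j.val else if j.val + 2 = k then p else q)
    split_ifs <;> omega
  · intro i j hij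
    have h1 := i.isLt
    have h2 := j.isLt
    have h3 : i.val < j.val := hij
    show (if i.val + 2 < k then i.val else if i.val + 2 = k then n + k - 3 - q else
      n + k - 3 - p) < (if j.val + 2 < k then j.val else if j.val + 2 = k then n + k - 3 - q else
      n + k - 3 - p)
    split_ifs <;> omega
  · intro i j
    have h1 := i.isLt
    have h2 := j.isLt
    simp only [S, idMat, Fin.ext_iff, decide_eq_decide]
    split_ifs <;> constructor <;> intro h <;> omega
  · rcases hcase with ⟨h1, h2⟩ | ⟨h1, h2⟩ | ⟨h1, h2⟩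
    · refine ⟨⟨x.val, by omega⟩, ?_⟩
      apply Fin.ext
      show (if x.val + 2 < k then x.val else _) = x.val
      rw [if_pos h2]
    · refine ⟨⟨k - 2, by omega⟩, ?_⟩
      apply Fin.ext
      show (if k - 2 + 2 < k then k - 2 else if k - 2 + 2 = k then p else q) = x.val
      split_ifs <;> omega
    · refine ⟨⟨k - 1, by omega⟩, ?_⟩
      apply Fin.ext
      show (if k - 1 + 2 < k then k - 1 else if k - 1 + 2 = k then p else q) = x.val
      split_ifs <;> omega
  · rcases hcase with ⟨h1, h2⟩ | ⟨h1, h2⟩ | ⟨h1, h2⟩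
    · refine ⟨⟨x.val, by omega⟩, ?_⟩
      apply Fin.ext
      show (if x.val + 2 < k then x.val else _) = y.val
      rw [if_pos h2, h1]
    · refine ⟨⟨k - 2, by omega⟩, ?_⟩
      apply Fin.ext
      show (if k - 2 + 2 < k then k - 2 else if k - 2 + 2 = k then n + k - 3 - q else
        n + k - 3 - p) = y.val
      split_ifs <;> omega
    · refine ⟨⟨k - 1, by omega⟩, ?_⟩
      apply Fin.ext
      show (if k - 1 + 2 < k then k - 1 else if k - 1 + 2 = k then n + k - 3 - q else
        n + k - 3 - p) = y.val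
      split_ifs <;> omega

lemma S_row {k n : ℕ} (hk : 2 ≤ k) (hn : k ≤ n) (x : Fin n) :
    rdeg (fun x y => S k n x y = true) x = if x.val + 2 < k then 1 else n - k + 1 := by
  have hxn := x.isLt
  rw [rdeg_bool]
  split_ifs with h
  · have : (univ.filter fun y => S k n x y = true) = {x} := by
      ext y
      simp only [S, mem_filter, mem_univ, true_and, mem_singleton, decide_eq_true_eq, Fin.ext_iff]
      omega
    rw [this, card_singleton]
  · have hlt : n + k - 3 - x.val < n := by omega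
    have h1 : (univ.filter fun y => S k n x y = true) =
        (Finset.Ici (⟨k - 2, by omega⟩ : Fin n)).erase ⟨n + k - 3 - x.val, hlt⟩ := by
      ext y
      have := y.isLt
      simp only [S, mem_filter, mem_univ, true_and, mem_erase, mem_Ici, decide_eq_true_eq,
        Fin.ext_iff, Fin.le_def, ne_eq]
      omega
    rw [h1, card_erase_of_mem, Fin.card_Ici]
    · show n - (k - 2) - 1 = n - k + 1
      omega
    · rw [mem_Ici, Fin.le_def]
      show k - 2 ≤ n + k - 3 - x.val
      omega

lemma S_count {k n : ℕ} (hk : 2 ≤ k) (hn : k ≤ n) :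
    (count (S k n) : ℤ) = (n : ℤ) ^ 2 - (2 * k - 3) * n + (k ^ 2 - 2 * k) := by
  rw [count_eq, ones]
  have h1 : ∑ x : Fin n, rdeg (fun x y => S k n x y = true) x =
      ∑ x : Fin n, (if x.val + 2 < k then 1 else n - k + 1) :=
    sum_congr rfl fun x _ => S_row hk hn x
  rw [h1, Fin.sum_univ_eq_sum_range (fun v => if v + 2 < k then 1 else n - k + 1) n]
  obtain ⟨a, rfl⟩ : ∃ a, k = a + 2 := ⟨k - 2, by omega⟩
  obtain ⟨c, rfl⟩ : ∃ c, n = a + 2 + c := ⟨n - (a + 2), by omega⟩
  have h2 : a + 2 + c = a + (c + 2) := by ring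
  rw [h2, sum_range_add]
  have h3 : ∑ x ∈ range a, (if x + 2 < a + 2 then 1 else a + (c + 2) - (a + 2) + 1) = a := by
    rw [sum_congr rfl fun x hx => if_pos (by have := mem_range.1 hx; omega)]
    simp
  have h4 : ∑ x ∈ range (c + 2), (if a + x + 2 < a + 2 then 1 else a + (c + 2) - (a + 2) + 1) =
      (c + 2) * (c + 1) := by
    rw [sum_congr rfl fun x hx => if_neg (by omega)]
    rw [sum_const, card_range, smul_eq_mul]
    congr 1
    omega
  rw [h3, h4]
  push_cast
  ring

/-- the upper bounds for all permutation matrices -/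
theorem upper {k n : ℕ} (hk : 2 ≤ k) (hn : k ≤ n) (σ : Equiv.Perm (Fin k))
    (A : Fin n → Fin n → Bool) (h : Forcing (permMat σ) A) :
    (k ^ 2 ≤ 2 * n ∨ n ≤ k + 3 →
      (count A : ℤ) ≤ (n : ℤ) ^ 2 - (2 * k - 3) * n + (k ^ 2 - 2 * k)) ∧
    4 * ((count A : ℤ) - ((n : ℤ) ^ 2 - (2 * k - 3) * n + (k ^ 2 - 2 * k))) ≤ ((k : ℤ) - 3) ^ 2 := by
  obtain ⟨t, rfl⟩ : ∃ t, k = t + 1 := ⟨k - 1, by omega⟩
  obtain ⟨h1, h2, h3⟩ := bounds (by omega) hn h.cov
  have e : ((n : ℤ) - t) ^ 2 + n - 1 = (n : ℤ) ^ 2 - (2 * ((t + 1 : ℕ) : ℤ) - 3) * n +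
      (((t + 1 : ℕ) : ℤ) ^ 2 - 2 * ((t + 1 : ℕ) : ℤ)) := by
    push_cast; ring
  rw [count_eq, ← e]
  refine ⟨?_, ?_⟩
  · rintro (h | h)
    · apply h2
      exact_mod_cast h
    · exact h3 (by omega)
  · refine h1.trans (le_of_eq ?_)
    push_cast
    ring

end Pool.Agent.V11165.QF
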