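import Pool.Agent.V11165.QF.Core

/-!
# The upper bounds
-/

set_option autoImplicit false
set_option linter.all false

namespace Pool.Agent.V11165.QF

open Finset

/-- the four inequalities for the excess -/
lemma excess {n t d D q b E : ℤ} (hn : n = t + d + D) (hq : q + b + 1 = n)
    (h1 : E + D * t ≤ D * n + (d + 1) * q) (h2 : E ≤ D * D + (d + 1) * q + D * b)
    (h3 : E ≤ D * D + (d + 1) * q + (t + d) * b) (h4 : E ≤ n * D) :
    E - ((n - t) ^ 2 + n - 1) ≤ d * (t - 1) - (d + 1) * b ∧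
    E - ((n - t) ^ 2 + n - 1) ≤ d * (t - 1) - d * D + (D - d - 1) * b ∧
    E - ((n - t) ^ 2 + n - 1) ≤ d * (t - 1) - d * D + (t - 1) * b ∧
    E - ((n - t) ^ 2 + n - 1) ≤ (D - 1) * (t - 1) - d * (D + d + 1) := by
  have hq' : q = t + d + D - 1 - b := by linarith
  subst hn
  subst hq'
  refine ⟨by nlinarith, by nlinarith, by nlinarith, by nlinarith⟩

lemma arithA {n t d D q b E : ℤ} (hn : n = t + d + D) (hq : q + b + 1 = n)
    (h1 : E + D * t ≤ D * n + (d + 1) * q) (h2 : E ≤ D * D + (d + 1) * q + D * b)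
    (h3 : E ≤ D * D + (d + 1) * q + (t + d) * b) (h4 : E ≤ n * D)
    (ht : 1 ≤ t) (hd : 0 ≤ d) (hD : 1 ≤ D) (hb : 0 ≤ b) :
    4 * (E - ((n - t) ^ 2 + n - 1)) ≤ (t - 2) ^ 2 := by
  obtain ⟨e1, e2, e3, e4⟩ := excess hn hq h1 h2 h3 h4
  rcases le_or_gt d b with h | h
  · have : (d + 1) * d ≤ (d + 1) * b := by
      apply mul_le_mul_of_nonneg_left h; linarith
    nlinarith [sq_nonneg (t - 2 - 2 * d)]
  · rcases le_or_gt (d + 1) D with h' | h'
    · have : (D - d - 1) * b ≤ (D - d - 1) * d := by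
        apply mul_le_mul_of_nonneg_left h.le; linarith
      nlinarith [sq_nonneg (t - 2 - 2 * d)]
    · have hDd : D ≤ d := by linarith
      have h5 : D * (2 * D + 1) ≤ d * (D + d + 1) := by
        apply mul_le_mul hDd _ (by linarith) hd
        linarith
      nlinarith [sq_nonneg (t - 2 - 2 * D), sq_nonneg D]

lemma arithB {n t d D q b E : ℤ} (hn : n = t + d + D) (hq : q + b + 1 = n)
    (h1 : E + D * t ≤ D * n + (d + 1) * q) (h2 : E ≤ D * D + (d + 1) * q + D * b)
    (h3 : E ≤ D * D + (d + 1) * q + (t + d) * b) (h4 : E ≤ n * D)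
    (ht : 1 ≤ t) (hd : 0 ≤ d) (hD : 1 ≤ D) (hb : 0 ≤ b) (hlarge : (t + 1) ^ 2 ≤ 2 * n) :
    E ≤ (n - t) ^ 2 + n - 1 := by
  obtain ⟨e1, e2, e3, e4⟩ := excess hn hq h1 h2 h3 h4
  rcases eq_or_lt_of_le hd with h0 | h0
  · rw [← h0] at e1
    linarith
  rcases le_or_gt (d * (t - 1)) ((d + 1) * b) with h | h
  · linarith
  rcases le_or_gt (t - 1) d with htd | htd
  · have hdt : d * (t - 1) ≤ d * d := mul_le_mul_of_nonneg_left htd hd
    rcases le_or_gt d b with h' | h'
    · have h9 : (d + 1) * d ≤ (d + 1) * b := by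
        apply mul_le_mul_of_nonneg_left h'; linarith
      have h10 : (d + 1) * d = d * d + d := by ring
      linarith
    · rcases le_or_gt (d + 1) D with h'' | h''
      · have h9 : (D - d - 1) * b ≤ (D - d - 1) * d := by
          apply mul_le_mul_of_nonneg_left h'.le; linarith
        have h10 : (D - d - 1) * d = d * D - d * d - d := by ring
        linarith
      · have h9 : (t - 1) * (D + d + 1) ≤ d * (D + d + 1) := by
          apply mul_le_mul_of_nonneg_right htd; linarith
        have h10 : (t - 1) * (D + d + 1) = (D - 1) * (t - 1) + (t - 1) * (d + 2) := by ring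
        have h11 : 0 ≤ (t - 1) * (d + 2) := mul_nonneg (by linarith) (by linarith)
        linarith
  · -- the main case `1 ≤ d ≤ t - 2`
    have hd1 : 1 ≤ d := by linarith
    have htd' : d + 1 ≤ t - 1 := by linarith
    have hsq : 2 * (d + 1) ≤ (t - 1) ^ 2 := by nlinarith
    have k1 : (t - 1) ^ 2 ≤ (d + 1) * (D - t + 1) := by
      have k2 : (d + 1) * ((t + 1) ^ 2 - 4 * t - 2 * d + 2) ≤
          (d + 1) * (2 * n - 4 * t - 2 * d + 2) := by
        apply mul_le_mul_of_nonneg_left _ (by linarith)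
        linarith
      have k3 : 0 ≤ (d - 1) * ((t - 1) ^ 2 - 2 * (d + 1)) :=
        mul_nonneg (by linarith) (by linarith)
      have hD' : D = n - t - d := by linarith
      rw [hD']
      nlinarith
    have k4 : (t - 1) * ((d + 1) * b) ≤ (t - 1) * (d * (t - 1)) := by
      apply mul_le_mul_of_nonneg_left h.le; linarith
    have k5 : d * (t - 1) ^ 2 ≤ d * ((d + 1) * (D - t + 1)) :=
      mul_le_mul_of_nonneg_left k1 hd
    have k6 : (d + 1) * (E - ((n - t) ^ 2 + n - 1)) ≤
        (d + 1) * (d * (t - 1) - d * D + (t - 1) * b) :=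
      mul_le_mul_of_nonneg_left e3 (by linarith)
    have k7 : (d + 1) * (E - ((n - t) ^ 2 + n - 1)) ≤ 0 := by nlinarith
    by_contra hcon
    have : 0 < (d + 1) * (E - ((n - t) ^ 2 + n - 1)) :=
      mul_pos (by linarith) (by linarith)
    linarith

variable {n : ℕ}

lemma rdeg_add_le {G : Fin n → Fin n → Prop} {t : ℕ} (h : Cov G t) {x y : Fin n}
    (hxy : G x y) : rdeg G x + t ≤ n := by
  classical
  obtain ⟨R, C, h1, h2, h3, h4, h5, h6, h7⟩ := h x y hxy
  have hdis : Disjoint (univ.filter fun z => G x z) (univ.image C) := by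
    rw [disjoint_left]
    intro z hz hz2
    obtain ⟨i, -, rfl⟩ := mem_image.1 hz2
    exact h5 i (mem_filter.1 hz).2
  have := card_le_univ ((univ.filter fun z => G x z) ∪ univ.image C)
  rw [card_union_of_disjoint hdis, card_image_of_injective _ h2, card_univ, Fintype.card_fin,
    Fintype.card_fin] at this
  exact this

/-- the easy bound: everything outside one copy -/
lemma ones_le_copy {G : Fin n → Fin n → Prop} {t D : ℕ} (h : Cov G t) {x y : Fin n}
    (hxy : G x y) (hr : ∀ s, rdeg G s ≤ D) (hc : ∀ y, cdeg G y ≤ D) :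
    ones G + 2 * D * (t + 1) ≤ (t + 1) + 2 * D * n := by
  classical
  obtain ⟨R, C, h1, h2, h3, h4, h5, h6, h7⟩ := h x y hxy
  let R' : Finset (Fin n) := insert x (univ.image R)
  let C' : Finset (Fin n) := insert y (univ.image C)
  have hR'c : R'.card = t + 1 := by
    rw [card_insert_of_notMem, card_image_of_injective _ h1, card_univ, Fintype.card_fin]
    intro hmem
    obtain ⟨i, -, hi⟩ := mem_image.1 hmem
    exact h3 i hi
  have hC'c : C'.card = t + 1 := by
    rw [card_insert_of_notMem, card_image_of_injective _ h2, card_univ, Fintype.card_fin]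
    intro hmem
    obtain ⟨i, -, hi⟩ := mem_image.1 hmem
    exact h4 i hi
  -- rows inside: at most one inside neighbour
  have hin : ∀ s ∈ R', (C'.filter fun z => G s z).card ≤ 1 := by
    intro s hs
    rcases mem_insert.1 hs with rfl | hs
    · rw [card_le_one]
      intro a ha b hb
      obtain ⟨ha1, ha2⟩ := mem_filter.1 ha
      obtain ⟨hb1, hb2⟩ := mem_filter.1 hb
      rcases mem_insert.1 ha1 with rfl | ha1
      · rcases mem_insert.1 hb1 with rfl | hb1
        · rfl
        · obtain ⟨i, -, rfl⟩ := mem_image.1 hb1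
          exact absurd hb2 (h5 i)
      · obtain ⟨i, -, rfl⟩ := mem_image.1 ha1
        exact absurd ha2 (h5 i)
    · obtain ⟨j, -, rfl⟩ := mem_image.1 hs
      rw [card_le_one]
      have key : ∀ a ∈ C'.filter fun z => G (R j) z, a = C j := by
        intro a ha
        obtain ⟨ha1, ha2⟩ := mem_filter.1 ha
        rcases mem_insert.1 ha1 with rfl | ha1
        · exact absurd ha2 (h6 j)
        · obtain ⟨i, -, rfl⟩ := mem_image.1 ha1
          rw [(h7 j i).1 ha2]
      intro a ha b hb
      rw [key a ha, key b hb]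
  have hrow : ∀ s ∈ R', rdeg G s ≤ 1 + (univ.filter fun z => G s z ∧ z ∉ C').card := by
    intro s hs
    have : (univ.filter fun z => G s z) = (C'.filter fun z => G s z) ∪
        (univ.filter fun z => G s z ∧ z ∉ C') := by
      ext z
      simp only [mem_filter, mem_univ, true_and, mem_union]
      tauto
    show (univ.filter fun z => G s z).card ≤ _
    rw [this]
    refine (card_union_le _ _).trans ?_
    have := hin s hs
    omega
  have hcols : ∑ s ∈ R', (univ.filter fun z => G s z ∧ z ∉ C').card ≤ D * (n - (t + 1)) := by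
    have e1 : ∑ s ∈ R', (univ.filter fun z => G s z ∧ z ∉ C').card =
        ∑ z ∈ univ \ C', (R'.filter fun s => G s z).card := by
      have := Finset.sum_card_bipartiteAbove_eq_sum_card_bipartiteBelow (s := R')
        (t := univ \ C') (r := G)
      simp only [Finset.bipartiteAbove, Finset.bipartiteBelow] at this
      rw [← this]
      refine sum_congr rfl fun s _ => ?_
      congr 1
      ext z
      simp only [mem_filter, mem_univ, true_and, mem_sdiff]
      tauto
    rw [e1]
    calc ∑ z ∈ univ \ C', (R'.filter fun s => G s z).card ≤ ∑ z ∈ univ \ C', D := by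
          refine sum_le_sum fun z _ => le_trans (card_le_card ?_) (hc z)
          exact fun s hs => mem_filter.2 ⟨mem_univ _, (mem_filter.1 hs).2⟩
      _ = D * (n - (t + 1)) := by
          rw [sum_const, smul_eq_mul, card_sdiff_of_subset (subset_univ _), card_univ,
            Fintype.card_fin, hC'c, mul_comm]
  have hrest : ∑ s ∈ univ \ R', rdeg G s ≤ D * (n - (t + 1)) := by
    calc ∑ s ∈ univ \ R', rdeg G s ≤ ∑ s ∈ univ \ R', D := sum_le_sum fun s _ => hr s
      _ = D * (n - (t + 1)) := by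
          rw [sum_const, smul_eq_mul, card_sdiff_of_subset (subset_univ _), card_univ,
            Fintype.card_fin, hR'c, mul_comm]
  have hsplit : ones G = ∑ s ∈ univ \ R', rdeg G s + ∑ s ∈ R', rdeg G s :=
    (sum_sdiff (subset_univ R')).symm
  have hR' : ∑ s ∈ R', rdeg G s ≤ (t + 1) + D * (n - (t + 1)) := by
    calc ∑ s ∈ R', rdeg G s ≤ ∑ s ∈ R', (1 + (univ.filter fun z => G s z ∧ z ∉ C').card) :=
          sum_le_sum hrow
      _ = (t + 1) + ∑ s ∈ R', (univ.filter fun z => G s z ∧ z ∉ C').card := by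
          rw [sum_add_distrib, sum_const, hR'c, smul_eq_mul, mul_one]
      _ ≤ _ := by gcongr
  have hle : t + 1 ≤ n := by
    have := card_le_univ R'
    rw [hR'c, Fintype.card_fin] at this
    exact this
  obtain ⟨m, hm⟩ := Nat.exists_eq_add_of_le hle
  have hm' : n - (t + 1) = m := by omega
  rw [hm'] at hrest hR'
  calc ones G + 2 * D * (t + 1) ≤ (D * m + ((t + 1) + D * m)) + 2 * D * (t + 1) := by
        rw [hsplit]; gcongr
    _ = (t + 1) + 2 * D * (t + 1 + m) := by ring
    _ = _ := by rw [← hm]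

/-- the bounds when a row has maximal degree -/
lemma bounds_row {G : Fin n → Fin n → Prop} {t D : ℕ} (ht : 1 ≤ t) (h : Cov G t) {x : Fin n}
    (hx : rdeg G x = D) (hD : 1 ≤ D) (hr : ∀ s, rdeg G s ≤ D) (hc : ∀ y, cdeg G y ≤ D) :
    4 * ((ones G : ℤ) - (((n : ℤ) - t) ^ 2 + n - 1)) ≤ ((t : ℤ) - 2) ^ 2 ∧
    (((t : ℤ) + 1) ^ 2 ≤ 2 * n → (ones G : ℤ) ≤ ((n : ℤ) - t) ^ 2 + n - 1) ∧
    (n ≤ t + 4 → (ones G : ℤ) ≤ ((n : ℤ) - t) ^ 2 + n - 1) := by
  classical
  have hex : ∃ y, G x y := by
    by_contra hcon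
    push Not at hcon
    have : rdeg G x = 0 := by
      show (univ.filter fun y => G x y).card = 0
      rw [card_eq_zero]
      ext y
      simp [hcon y]
    omega
  obtain ⟨y, hxy⟩ := hex
  have hle := rdeg_add_le h hxy
  rw [hx] at hle
  obtain ⟨d, hd⟩ : ∃ d, n = t + d + D := ⟨n - t - D, by omega⟩
  obtain ⟨q, b, hq, h1, h2, h3⟩ := master h x hx hr hc hd
  have h4 : ones G ≤ n * D := by
    calc ones G ≤ ∑ s : Fin n, D := sum_le_sum fun s _ => hr s
      _ = n * D := by rw [sum_const, card_univ, Fintype.card_fin, smul_eq_mul]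
  have z1 : (n : ℤ) = t + d + D := by exact_mod_cast hd
  have z2 : (q : ℤ) + b + 1 = n := by exact_mod_cast hq
  have z3 : (ones G : ℤ) + D * t ≤ D * n + (d + 1) * q := by exact_mod_cast h1
  have z4 : (ones G : ℤ) ≤ D * D + (d + 1) * q + D * b := by exact_mod_cast h2
  have z5 : (ones G : ℤ) ≤ D * D + (d + 1) * q + (t + d) * b := by exact_mod_cast h3
  have z6 : (ones G : ℤ) ≤ n * D := by exact_mod_cast h4
  have z7 : (1 : ℤ) ≤ t := by exact_mod_cast ht
  have z8 : (1 : ℤ) ≤ D := by exact_mod_cast hD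
  refine ⟨arithA z1 z2 z3 z4 z5 z6 z7 (by positivity) z8 (by positivity),
    arithB z1 z2 z3 z4 z5 z6 z7 (by positivity) z8 (by positivity), fun hsmall => ?_⟩
  rcases Nat.eq_zero_or_pos d with rfl | hd0
  · obtain ⟨e1, -, -, -⟩ := excess z1 z2 z3 z4 z5 z6
    push_cast at e1
    have : (0 : ℤ) ≤ b := by positivity
    linarith
  · have h5 := ones_le_copy h hxy hr hc
    have z9 : (ones G : ℤ) + 2 * D * (t + 1) ≤ (t + 1) + 2 * D * n := by exact_mod_cast h5
    have z10 : (1 : ℤ) ≤ d := by exact_mod_cast hd0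
    have z11 : (n : ℤ) ≤ t + 4 := by exact_mod_cast hsmall
    -- with `e = n - t - 1`
    obtain ⟨e, he⟩ : ∃ e : ℤ, e = n - t - 1 := ⟨_, rfl⟩
    have hn' : (n : ℤ) = e + t + 1 := by linarith
    have hDe : (D : ℤ) ≤ e := by linarith
    have he3 : e ≤ 3 := by linarith
    have he0 : 0 ≤ e := by linarith
    rw [hn'] at z9 ⊢
    have k1 : (D : ℤ) * e ≤ e * e := mul_le_mul_of_nonneg_right hDe he0
    have k2 : e * e ≤ 3 * e := mul_le_mul_of_nonneg_right he3 he0
    nlinarith

/-- **the upper bounds** -/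
theorem bounds {G : Fin n → Fin n → Prop} {t : ℕ} (ht : 1 ≤ t) (htn : t + 1 ≤ n)
    (h : Cov G t) :
    4 * ((ones G : ℤ) - (((n : ℤ) - t) ^ 2 + n - 1)) ≤ ((t : ℤ) - 2) ^ 2 ∧
    (((t : ℤ) + 1) ^ 2 ≤ 2 * n → (ones G : ℤ) ≤ ((n : ℤ) - t) ^ 2 + n - 1) ∧
    (n ≤ t + 4 → (ones G : ℤ) ≤ ((n : ℤ) - t) ^ 2 + n - 1) := by
  classical
  have hn1 : 0 < n := by omega
  haveI : Nonempty (Fin n) := ⟨⟨0, hn1⟩⟩
  obtain ⟨x, -, hx⟩ := exists_max_image (univ : Finset (Fin n)) (rdeg G) univ_nonempty
  obtain ⟨y, -, hy⟩ := exists_max_image (univ : Finset (Fin n)) (cdeg G) univ_nonempty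
  by_cases h0 : ones G = 0
  · have hnz : (1 : ℤ) ≤ n := by exact_mod_cast hn1
    have hsq : (0 : ℤ) ≤ ((n : ℤ) - t) ^ 2 := sq_nonneg _
    have hsq2 : (0 : ℤ) ≤ ((t : ℤ) - 2) ^ 2 := sq_nonneg _
    have h00 : (ones G : ℤ) = 0 := by exact_mod_cast h0
    rw [h00]
    refine ⟨?_, fun _ => ?_, fun _ => ?_⟩ <;> linarith
  rcases le_total (cdeg G y) (rdeg G x) with hxy | hxy
  · refine bounds_row ht h (x := x) rfl ?_ (fun s => hx s (mem_univ _))
      (fun s => (hy s (mem_univ _)).trans hxy)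
    by_contra hcon
    apply h0
    rw [ones, sum_eq_zero_iff]
    intro s _
    have := hx s (mem_univ _)
    omega
  · have hsw : ones (fun a b => G b a) = ones G := by
      rw [ones_eq_cols G]
      rfl
    have := bounds_row ht h.swap (x := y) (D := cdeg G y) rfl ?_ (fun s => hy s (mem_univ _))
      (fun s => (hx s (mem_univ _)).trans hxy)
    · rw [hsw] at this
      exact this
    · by_contra hcon
      apply h0
      rw [ones_eq_cols, sum_eq_zero_iff]
      intro s _
      have := hy s (mem_univ _)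
      omega

end Pool.Agent.V11165.QF
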